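import Pool.Agent.Helper64.PC.Final

open Pool.Agent.Helper46.SP Pool.Agent.Helper64.PC

/-- Q1 is independent of ZFC: there is a model `(M, E)` of ZFC (all axioms of ZF, with the
separation and replacement schemas for all first-order formulas with parameters, and the axiom
of choice) in which Q1 holds, and there is one in which Q1 fails. -/
theorem Pool.Agent.Results.MP_90cb67_lc.IndependentOfZFC.result :
    (∃ (M : Type) (E : M → M → Prop), IsZF E ∧ AC E ∧ Q1 E) ∧
    (∃ (M : Type) (E : M → M → Prop), IsZF E ∧ AC E ∧ ¬ Q1 E) :=
  goal
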